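import Pool.Agent.V11203.GE.Refl

/-!
# Short periodic geodesics between fixed sets of isometric involutions

`X` is a compact metric space in which any two points are joined by a minimal geodesic and minimal
geodesics between points at distance less than `r` are unique (every closed Riemannian manifold).
`σ` and `τ` are isometric involutions of `X` whose product has finite order dividing `m` (for
instance `σ = τ` and `m = 1`). `A` and `B` are parts of the fixed sets of `σ` and `τ` which are open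
and closed in these fixed sets (for a closed manifold: unions of connected components). If `A` and
`B` are disjoint, then there is a periodic geodesic of length at most `2 m dist a b` for all `a ∈ A`
and `b ∈ B`. In particular, if an isometric involution has a disconnected fixed set, there is a
periodic geodesic of length at most `2 diam X`.
-/

set_option autoImplicit false

open Set Topology

namespace Pool.Agent.Results.MP_3eff7f_gt.InvolutionFixedSets

open Pool.Agent.Y489.GE Pool.Agent.V11203.GE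

lemma gap {X : Type} [MetricSpace X] [CompactSpace X] (σ : X ≃ᵢ X) {A U : Set X}
    (hA : IsClosed A) (hU : IsOpen U) (hAU : A = U ∩ {x | σ x = x}) :
    ∃ δ : ℝ, 0 < δ ∧ ∀ x ∈ A, ∀ y, σ y = y → dist x y < δ → y ∈ A := by
  have hsub : A ⊆ U := by
    intro x hx
    rw [hAU] at hx
    exact hx.1
  obtain ⟨δ, hδ, h⟩ := hA.isCompact.exists_thickening_subset_open hU hsub
  refine ⟨δ, hδ, fun x hx y hy hxy => ?_⟩
  rw [hAU]
  refine ⟨h ?_, hy⟩
  rw [Metric.mem_thickening_iff]
  exact ⟨x, hx, by rw [dist_comm]; exact hxy⟩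

theorem result (X : Type) [MetricSpace X] [CompactSpace X] (r : ℝ) (hr : 0 < r)
    (hX : GeodSpace X) (hU : UniqGeod X r) (σ τ : X ≃ᵢ X) (hσ : σ * σ = 1) (hτ : τ * τ = 1)
    (m : ℕ) (hm : 0 < m) (hστ : (σ * τ) ^ m = 1) (A B : Set X)
    (hA : IsClosed A) (hA' : ∃ U : Set X, IsOpen U ∧ A = U ∩ {x | σ x = x})
    (hB : IsClosed B) (hB' : ∃ V : Set X, IsOpen V ∧ B = V ∩ {x | τ x = x})
    (hAB : Disjoint A B) :
    ∀ a ∈ A, ∀ b ∈ B, ClosedGeod X (2 * m * dist a b) := by
  intro a ha b hb
  obtain ⟨U, hUo, hAU⟩ := hA'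
  obtain ⟨V, hVo, hBV⟩ := hB'
  obtain ⟨δ₁, hδ₁, h1⟩ := gap σ hA hUo hAU
  obtain ⟨δ₂, hδ₂, h2⟩ := gap τ hB hVo hBV
  obtain ⟨⟨p, q⟩, ⟨hp, hq⟩, hmin⟩ := (hA.isCompact.prod hB.isCompact).exists_isMinOn
    ⟨(a, b), ⟨ha, hb⟩⟩ (continuous_dist.continuousOn (s := A ×ˢ B))
  have hmin' : ∀ x ∈ A, ∀ y ∈ B, dist p q ≤ dist x y := fun x hx y hy => hmin (mk_mem_prod hx hy)
  have hpq : p ≠ q := by
    rintro rfl
    exact (disjoint_left.1 hAB) hp hq
  have hσ' : ∀ x, σ (σ x) = x := fun x => by
    have := congrArg (fun f : X ≃ᵢ X => f x) hσ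
    simpa [IsometryEquiv.mul_apply] using this
  have hτ' : ∀ x, τ (τ x) = x := fun x => by
    have := congrArg (fun f : X ≃ᵢ X => f x) hτ
    simpa [IsometryEquiv.mul_apply] using this
  have hpσ : σ p = p := by
    have h := hp
    rw [hAU] at h
    exact h.2
  have hqτ : τ q = q := by
    have h := hq
    rw [hBV] at h
    exact h.2
  obtain ⟨γ, ℓ, hℓ, hℓ', hper, hloc⟩ := periodic_of_involutions (δ := min δ₁ δ₂) hr hX hU
    (lt_min hδ₁ hδ₂) (dist_pos.2 hpq) σ τ hσ' hτ' m hm hστ (A := A) (B := B)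
    (fun x hx y hy hxy => h1 x hx y hy (hxy.trans_le (min_le_left _ _)))
    (fun x hx y hy hxy => h2 x hx y hy (hxy.trans_le (min_le_right _ _))) hp hpσ hq hqτ rfl
    (fun x hx => hmin' x hx q hq) (fun y hy => hmin' p hp y hy)
  refine ⟨γ, ℓ, hℓ, hℓ'.trans ?_, hper, hloc⟩
  have := hmin' a ha b hb
  gcongr

end Pool.Agent.Results.MP_3eff7f_gt.InvolutionFixedSets
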